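import Pool.Agent.R288.PC.Flats

/-!
Restriction of corner-free subsets of `(F_2^ι)^2` to the cosets of the subspace of the vectors that
take equal values on the two coordinates of each of `m` disjoint pairs and vanish elsewhere.
-/

set_option autoImplicit false

namespace Pool.Agent.H69d

open Finset Pool.Agent.R288.PC

/-- `F_2^ι` -/
abbrev W (ι : Type) := ι → ZMod 2

/-- no nontrivial corner -/
def CF {ι : Type} (A : Finset (W ι × W ι)) : Prop :=
  ∀ x y z : W ι, (x, y) ∈ A → (x, y + z) ∈ A → (x + z, y) ∈ A → z = 0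

variable {ι : Type} {m : ℕ}

/-- the vector with the value `v t` at the two coordinates `p (t, b)`, and `0` elsewhere -/
noncomputable def L (p : Fin m × Bool ↪ ι) (v : V m) : W ι :=
  Function.extend p (fun tb => v tb.1) 0

lemma L_apply (p : Fin m × Bool ↪ ι) (v : V m) (tb : Fin m × Bool) : L p v (p tb) = v tb.1 :=
  p.injective.extend_apply _ _ _

lemma L_off (p : Fin m × Bool ↪ ι) (v : V m) (i : ι) (h : ¬ ∃ tb, p tb = i) : L p v i = 0 :=
  Function.extend_apply' _ _ _ h

lemma L_add (p : Fin m × Bool ↪ ι) (u v : V m) : L p (u + v) = L p u + L p v := by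
  funext i
  by_cases h : ∃ tb, p tb = i
  · obtain ⟨tb, rfl⟩ := h
    rw [Pi.add_apply, L_apply, L_apply, L_apply, Pi.add_apply]
  · rw [Pi.add_apply, L_off p _ _ h, L_off p _ _ h, L_off p _ _ h, add_zero]

lemma L_inj (p : Fin m × Bool ↪ ι) (v : V m) (h : L p v = 0) : v = 0 := by
  funext t
  have := congrFun h (p (t, false))
  rw [L_apply] at this
  exact this

lemma L_zero (p : Fin m × Bool ↪ ι) : L p 0 = 0 := by
  funext i
  by_cases h : ∃ tb, p tb = i
  · obtain ⟨tb, rfl⟩ := h
    rw [L_apply]
    rfl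
  · rw [L_off p _ _ h]
    rfl

lemma W_self (a : W ι) : a + a = 0 := by
  funext i
  have : ∀ b : ZMod 2, b + b = 0 := by decide
  exact this (a i)

/-- The averaging argument. -/
lemma coset_bound [Fintype ι] [DecidableEq ι] (K : Type) [Field K] (p : Fin m × Bool ↪ ι) (N : ℕ)
    (A : Finset (W ι × W ι)) (hA : CF A) (G : Finset (W ι × W ι))
    (hG : ∀ a ∈ G, a ∈ A ∧ ∃ h ∈ Deg K m N, h 0 ≠ 0 ∧ ∀ v, h v ≠ 0 → (a.1, a.2 + L p v) ∈ A) :
    G.card * 2 ^ m ≤ 4 ^ Fintype.card ι * vol m N := by
  classical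
  -- restricted sets
  let A' : W ι × W ι → Finset (V m × V m) := fun c =>
    univ.filter (fun uv => (c.1 + L p uv.1, c.2 + L p uv.2) ∈ A)
  let G' : W ι × W ι → Finset (V m × V m) := fun c =>
    univ.filter (fun uv => (c.1 + L p uv.1, c.2 + L p uv.2) ∈ G)
  have h1 : ∀ c, (G' c).card ≤ 2 ^ m * vol m N := by
    intro c
    have hA' : CornerFree (A' c) := by
      intro u v w k1 k2 k3
      simp only [A', mem_filter, mem_univ, true_and, L_add] at k1 k2 k3
      refine L_inj p w (hA _ _ _ k1 ?_ ?_)
      · rw [add_assoc]; exact k2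
      · rw [add_assoc]; exact k3
    refine rows (K := K) N (A' c) hA' (G' c) ?_
    rintro ⟨u, v⟩ huv
    simp only [G', mem_filter, mem_univ, true_and] at huv
    obtain ⟨k1, h, k2, k3, k4⟩ := hG _ huv
    refine ⟨by simp only [A', mem_filter, mem_univ, true_and]; exact k1, ?_⟩
    refine ⟨fun v' => h (v + v'), translate N v k2, ?_, ?_⟩
    · show h (v + v) ≠ 0
      rw [neg_self]; exact k3
    · intro v' hv'
      have := k4 _ hv'
      simp only [A', Set.mem_ofPred_eq, mem_filter, mem_univ, true_and]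
      have e : c.2 + L p v + L p (v + v') = c.2 + L p v' := by
        rw [L_add, add_assoc, ← add_assoc (L p v), W_self, zero_add]
      change (c.1 + L p u, c.2 + L p v + L p (v + v')) ∈ A at this
      rw [e] at this
      exact this
  have h2 : ∑ c : W ι × W ι, (G' c).card = 4 ^ m * G.card := by
    simp only [G', card_filter]
    rw [sum_comm]
    have h3 : ∀ uv : V m × V m, ∑ c : W ι × W ι,
        (if (c.1 + L p uv.1, c.2 + L p uv.2) ∈ G then 1 else 0) = G.card := by
      intro uv
      rw [← card_filter]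
      refine card_bij (fun c _ => (c.1 + L p uv.1, c.2 + L p uv.2)) ?_ ?_ ?_
      · intro c hc
        exact (mem_filter.1 hc).2
      · intro c _ c' _ h
        rw [Prod.mk.injEq] at h
        exact Prod.ext (add_right_cancel h.1) (add_right_cancel h.2)
      · intro a ha
        refine ⟨(a.1 + L p uv.1, a.2 + L p uv.2), ?_, ?_⟩
        · rw [mem_filter]
          refine ⟨mem_univ _, ?_⟩
          simp only [add_assoc, W_self, add_zero]
          exact ha
        · simp only [add_assoc, W_self, add_zero]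
    rw [sum_congr rfl (fun uv _ => h3 uv), sum_const, card_univ, Fintype.card_prod,
      Fintype.card_fun, ZMod.card, Fintype.card_fin, smul_eq_mul]
    congr 1
    rw [← mul_pow]; norm_num
  have h3 : ∑ c : W ι × W ι, (G' c).card ≤ 4 ^ Fintype.card ι * (2 ^ m * vol m N) := by
    refine (sum_le_sum (fun c _ => h1 c)).trans ?_
    rw [sum_const, card_univ, Fintype.card_prod, Fintype.card_fun, ZMod.card, smul_eq_mul,
      ← mul_pow]
    norm_num
  rw [h2] at h3
  have h4 : (4 : ℕ) ^ m = 2 ^ m * 2 ^ m := by rw [← mul_pow]; norm_num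
  rw [h4] at h3
  have h5 : 2 ^ m * (G.card * 2 ^ m) ≤ 2 ^ m * (4 ^ Fintype.card ι * vol m N) := by
    calc 2 ^ m * (G.card * 2 ^ m) = 2 ^ m * 2 ^ m * G.card := by ring
      _ ≤ _ := h3
      _ = _ := by ring
  exact Nat.le_of_mul_le_mul_left h5 (by positivity)

end Pool.Agent.H69d
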