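import Pool.Agent.H69d.Base

/-!
Certificates: flipping pairs of coordinates without changing the numbers of ones in the classes.
-/

set_option autoImplicit false

namespace Pool.Agent.H69d

open Finset Pool.Agent.R288.PC

variable {ι : Type} {m D : ℕ}

lemma prod_mem' {K : Type} [Field K] {κ : Type} (s : Finset κ) (d : κ → ℕ) (f : κ → V m → K)
    (hf : ∀ i ∈ s, f i ∈ Deg K m (d i)) :
    (fun y => ∏ i ∈ s, f i y) ∈ Deg K m (∑ i ∈ s, d i) := by
  classical
  induction s using Finset.induction_on with
  | empty => simpa using one_mem (K := K) (n := m) 0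
  | insert a s ha ih =>
    have h1 := mul_mem (hf a (mem_insert_self _ _)) (ih (fun i hi => hf i (mem_insert_of_mem hi)))
    rw [sum_insert ha]
    convert h1 using 1
    funext y
    rw [prod_insert ha]

/-- the coordinate as an element of the field -/
def crd (K : Type) [Field K] (v : V m) (t : Fin m) : K := if v t = 1 then 1 else 0

lemma pair_mem (K : Type) [Field K] (s t : Fin m) :
    (fun v : V m => 1 - crd K v s - crd K v t) ∈ Deg K m 1 :=
  (Deg K m 1).sub_mem ((Deg K m 1).sub_mem (one_mem 1) (coord_mem s)) (coord_mem t)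

lemma single_mem (K : Type) [Field K] (t : Fin m) :
    (fun v : V m => 1 - crd K v t) ∈ Deg K m 1 :=
  (Deg K m 1).sub_mem (one_mem 1) (coord_mem t)

lemma pairing_aux (K : Type) [Field K] (E0 E1 : Finset (Fin m)) (h01 : E1.card ≤ E0.card) :
    ∃ h ∈ Deg K m E0.card, h 0 ≠ 0 ∧ ∀ v : V m, h v ≠ 0 →
      (E0.filter (fun t => v t = 1)).card = (E1.filter (fun t => v t = 1)).card := by
  classical
  obtain ⟨F, hF, hFc⟩ := exists_subset_card_eq h01
  obtain e : E1 ≃ F := Finset.equivOfCardEq hFc.symm
  refine ⟨fun v => (∏ t ∈ E1.attach, (1 - crd K v t - crd K v (e t))) *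
    ∏ t ∈ E0 \ F, (1 - crd K v t), ?_, ?_, ?_⟩
  · have k1 := prod_mem (K := K) (n := m) E1.attach
      (fun t v => 1 - crd K v t - crd K v (e t)) (fun t _ => pair_mem K _ _)
    have k2 := prod_mem (K := K) (n := m) (E0 \ F) (fun t v => 1 - crd K v t)
      (fun t _ => single_mem K _)
    have k3 := mul_mem k1 k2
    have e1 : E1.attach.card + (E0 \ F).card = E0.card := by
      rw [card_attach, card_sdiff_of_subset hF, hFc]
      omega
    rw [e1] at k3
    exact k3
  · have k0 : ∀ t, crd K (0 : V m) t = 0 := fun t => if_neg (by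
      change ¬ ((0 : ZMod 2) = 1)
      decide)
    simp [k0]
  · intro v hv
    have h1 := left_ne_zero_of_mul hv
    have h2 := right_ne_zero_of_mul hv
    rw [prod_ne_zero_iff] at h1 h2
    have h3 : ∀ t ∈ E0 \ F, v t ≠ 1 := by
      intro t ht hc
      refine h2 t ht ?_
      rw [crd, if_pos hc, sub_self]
    have h4 : ∀ t : E1, (v t = 1 ↔ v (e t) = 1) := by
      intro t
      have := h1 t (mem_attach _ _)
      unfold crd at this
      constructor
      · intro k
        by_contra hc
        rw [if_pos k, if_neg hc] at this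
        simp at this
      · intro k
        by_contra hc
        rw [if_pos k, if_neg hc] at this
        simp at this
    have h5 : E0.filter (fun t => v t = 1) = F.filter (fun t => v t = 1) := by
      ext t
      rw [mem_filter, mem_filter]
      constructor
      · rintro ⟨k1, k2⟩
        refine ⟨?_, k2⟩
        by_contra hc
        exact h3 t (mem_sdiff.2 ⟨k1, hc⟩) k2
      · rintro ⟨k1, k2⟩
        exact ⟨hF k1, k2⟩
    rw [h5]
    symm
    refine card_bij (fun t ht => (e ⟨t, (mem_filter.1 ht).1⟩ : Fin m)) ?_ ?_ ?_
    · intro t ht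
      rw [mem_filter]
      exact ⟨(e _).2, (h4 ⟨t, (mem_filter.1 ht).1⟩).1 (mem_filter.1 ht).2⟩
    · intro t ht t' ht' h
      have := e.injective (Subtype.ext h)
      exact congrArg Subtype.val this
    · intro t ht
      rw [mem_filter] at ht
      have e2 : e (e.symm ⟨t, ht.1⟩) = ⟨t, ht.1⟩ := e.apply_symm_apply _
      refine ⟨(e.symm ⟨t, ht.1⟩ : Fin m), ?_, ?_⟩
      · rw [mem_filter]
        refine ⟨(e.symm _).2, (h4 (e.symm ⟨t, ht.1⟩)).2 ?_⟩
        rw [e2]
        exact ht.2
      · have : (⟨((e.symm ⟨t, ht.1⟩ : E1) : Fin m), (e.symm ⟨t, ht.1⟩).2⟩ : E1) =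
            e.symm ⟨t, ht.1⟩ := rfl
        simp only [this, e2]

lemma pairing (K : Type) [Field K] (E0 E1 : Finset (Fin m)) :
    ∃ h ∈ Deg K m (max E0.card E1.card), h 0 ≠ 0 ∧ ∀ v : V m, h v ≠ 0 →
      (E0.filter (fun t => v t = 1)).card = (E1.filter (fun t => v t = 1)).card := by
  rcases le_total E1.card E0.card with h | h
  · rw [max_eq_left h]
    exact pairing_aux K E0 E1 h
  · rw [max_eq_right h]
    obtain ⟨f, h1, h2, h3⟩ := pairing_aux K E1 E0 h
    exact ⟨f, h1, h2, fun v hv => (h3 v hv).symm⟩

/-- the kind of a pair: the classes of its coordinates, and the sum of their values -/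
abbrev Key (D : ℕ) : Type := Fin D × Fin D × ZMod 2

def key (a b : Fin m → Fin D) (w : Fin m → ZMod 2 × ZMod 2) (t : Fin m) : Key D :=
  (a t, b t, (w t).1 + (w t).2)

/-- flipping a pair of this kind changes the numbers of ones -/
def Live (k : Key D) : Prop := ¬ (k.1 = k.2.1 ∧ k.2.2 = 1)

instance (k : Key D) : Decidable (Live k) := by unfold Live; infer_instance

def E (a b : Fin m → Fin D) (w : Fin m → ZMod 2 × ZMod 2) (k : Key D) (c : ZMod 2) :
    Finset (Fin m) :=
  univ.filter (fun t => (key a b w t = k ∧ Live k) ∧ (w t).1 = c)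

/-- the degree of the certificate -/
def dg (a b : Fin m → Fin D) (w : Fin m → ZMod 2 × ZMod 2) : ℕ :=
  ∑ k : Key D, max (E a b w k 0).card (E a b w k 1).card

/-- the number of ones in the class `j` -/
def cnt [Fintype ι] (col : ι → Fin D) (j : Fin D) (y : W ι) : ℕ :=
  (univ.filter (fun i => col i = j ∧ y i = 1)).card

def fst' (col : ι → Fin D) (p : Fin m × Bool ↪ ι) : Fin m → Fin D := fun t => col (p (t, false))
def snd' (col : ι → Fin D) (p : Fin m × Bool ↪ ι) : Fin m → Fin D := fun t => col (p (t, true))
def vals (p : Fin m × Bool ↪ ι) (y : W ι) : Fin m → ZMod 2 × ZMod 2 :=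
  fun t => (y (p (t, false)), y (p (t, true)))

def sgn (c : ZMod 2) : ℤ := if c = 0 then 1 else -1

def wt (j : Fin D) (k : Key D) : ℤ :=
  (if k.1 = j then 1 else 0) + sgn k.2.2 * (if k.2.1 = j then 1 else 0)

lemma wt_dead (j : Fin D) (k : Key D) (h : ¬ Live k) : wt j k = 0 := by
  unfold Live at h
  rw [not_not] at h
  have e : sgn k.2.2 = -1 := by rw [h.2]; decide
  unfold wt
  rw [e, h.1]
  split_ifs <;> simp

lemma step (P : Prop) [Decidable P] (s c : ZMod 2) :
    ((if P ∧ s + c = 1 then 1 else 0 : ℤ) - (if P ∧ s = 1 then 1 else 0)) =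
      if c = 1 then sgn s * (if P then 1 else 0) else 0 := by
  by_cases hP : P
  · simp only [hP, true_and, if_true, mul_one]
    revert s c
    decide
  · simp [hP]

lemma sgn_add (s c : ZMod 2) : sgn c = sgn s * sgn (s + c) := by
  revert s c
  decide

lemma cert [Fintype ι] [DecidableEq ι] (K : Type) [Field K] (col : ι → Fin D)
    (p : Fin m × Bool ↪ ι) (y : W ι) :
    ∃ h ∈ Deg K m (dg (fst' col p) (snd' col p) (vals p y)), h 0 ≠ 0 ∧
      ∀ v, h v ≠ 0 → ∀ j, cnt col j (y + L p v) = cnt col j y := by
  classical
  choose f hf hf0 hfv using fun k : Key D => pairing K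
    (E (fst' col p) (snd' col p) (vals p y) k 0) (E (fst' col p) (snd' col p) (vals p y) k 1)
  refine ⟨fun v => ∏ k : Key D, f k v, ?_, ?_, ?_⟩
  · exact prod_mem' univ _ f (fun k _ => hf k)
  · exact prod_ne_zero_iff.2 (fun k _ => hf0 k)
  · intro v hv j
    rw [prod_ne_zero_iff] at hv
    have h1 : ∀ k, _ := fun k => hfv k v (hv k (mem_univ _))
    -- the difference of the two sides
    have h2 : ((cnt col j (y + L p v) : ℕ) : ℤ) - cnt col j y = 0 := by
      unfold cnt
      rw [card_filter, card_filter]
      push_cast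
      rw [← sum_sub_distrib]
      have h3 : ∑ i, ((if col i = j ∧ (y + L p v) i = 1 then 1 else 0 : ℤ) -
          (if col i = j ∧ y i = 1 then 1 else 0)) =
          ∑ t : Fin m, (if v t = 1 then
            sgn (vals p y t).1 * wt j (key (fst' col p) (snd' col p) (vals p y) t) else 0) := by
        rw [← sum_subset (subset_univ (univ.map p)), sum_map, Fintype.sum_prod_type]
        · refine sum_congr rfl (fun t _ => ?_)
          rw [Fintype.sum_bool, add_comm]
          simp only [Pi.add_apply, L_apply]
          rw [step, step]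
          by_cases hv1 : v t = 1
          · rw [if_pos hv1, if_pos hv1, if_pos hv1]
            unfold wt key vals fst' snd'
            simp only
            rw [mul_add, ← mul_assoc, ← sgn_add]
          · rw [if_neg hv1, if_neg hv1, if_neg hv1, add_zero]
        · intro i _ hi
          have : ¬ ∃ tb, p tb = i := by
            rintro ⟨tb, rfl⟩
            exact hi (mem_map_of_mem _ (mem_univ _))
          rw [Pi.add_apply, L_off p v i this, add_zero, sub_self]
      rw [h3, ← sum_fiberwise univ (fun t => key (fst' col p) (snd' col p) (vals p y) t)]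
      refine sum_eq_zero (fun k _ => ?_)
      have h4 : ∀ t ∈ univ.filter (fun t => key (fst' col p) (snd' col p) (vals p y) t = k),
          (if v t = 1 then
            sgn (vals p y t).1 * wt j (key (fst' col p) (snd' col p) (vals p y) t) else 0) =
          (if v t = 1 then sgn (vals p y t).1 else 0) * wt j k := by
        intro t ht
        rw [(mem_filter.1 ht).2]
        split_ifs <;> simp
      rw [sum_congr rfl h4, ← sum_mul]
      by_cases hk : Live k
      · have h5 : ∑ t ∈ univ.filter (fun t => key (fst' col p) (snd' col p) (vals p y) t = k),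
            (if v t = 1 then sgn (vals p y t).1 else 0) =
            (((E (fst' col p) (snd' col p) (vals p y) k 0).filter (fun t => v t = 1)).card : ℤ) -
            ((E (fst' col p) (snd' col p) (vals p y) k 1).filter (fun t => v t = 1)).card := by
          unfold E
          rw [filter_filter, filter_filter, card_filter, card_filter, sum_filter]
          push_cast
          rw [← sum_sub_distrib]
          refine sum_congr rfl (fun t _ => ?_)
          by_cases c1 : key (fst' col p) (snd' col p) (vals p y) t = k
          · by_cases c2 : v t = 1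
            · rcases zmod2 (vals p y t).1 with c3 | c3
              · simp [c1, c2, c3, hk, sgn]
              · simp [c1, c2, c3, hk, sgn]
            · simp [c2]
          · simp [c1]
        rw [h5, h1 k, sub_self, zero_mul]
      · rw [wt_dead j k hk, mul_zero]
    omega

end Pool.Agent.H69d
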