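import Pool.Agent.H69d.Cert

/-!
Few vectors have certificates of large degree.
-/

set_option autoImplicit false

namespace Pool.Agent.H69d

open Finset Pool.Agent.R288.PC

variable {ι : Type} {m D : ℕ}

/-- the factor of one pair -/
noncomputable def fac (a b : Fin m → Fin D) (l : ℝ) (e : Key D → ZMod 2) (t : Fin m)
    (c : ZMod 2 × ZMod 2) : ℝ :=
  if Live (a t, b t, c.1 + c.2) ∧ c.1 = e (a t, b t, c.1 + c.2) then l else 1

lemma fac_sum (a b : Fin m → Fin D) (l : ℝ) (e : Key D → ZMod 2) (t : Fin m) :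
    ∑ c : ZMod 2 × ZMod 2, fac a b l e t c = if a t = b t then 3 + l else 2 + 2 * l := by
  have hu : (univ : Finset (ZMod 2)) = {0, 1} := by decide
  have e00 : (0 : ZMod 2) + 0 = 0 := by decide
  have e01 : (0 : ZMod 2) + 1 = 1 := by decide
  have e10 : (1 : ZMod 2) + 0 = 1 := by decide
  have e11 : (1 : ZMod 2) + 1 = 0 := by decide
  have n01 : ¬ ((0 : ZMod 2) = 1) := by decide
  have n10 : ¬ ((1 : ZMod 2) = 0) := by decide
  rw [Fintype.sum_prod_type, hu, sum_pair (by decide), sum_pair (by decide), sum_pair (by decide)]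
  unfold fac Live
  simp only [e00, e01, e10, e11]
  by_cases hab : a t = b t
  · rw [hab]
    rcases zmod2 (e (b t, b t, 0)) with h0 | h0 <;> simp [h0, n01, n10] <;> ring
  · rcases zmod2 (e (a t, b t, 0)) with h0 | h0 <;> rcases zmod2 (e (a t, b t, 1)) with h1 | h1 <;>
      simp [h0, h1, hab, n01, n10] <;> ring

lemma prod_E (a b : Fin m → Fin D) (l : ℝ) (e : Key D → ZMod 2)
    (w : Fin m → ZMod 2 × ZMod 2) :
    ∏ k : Key D, l ^ (E a b w k (e k)).card = ∏ t, fac a b l e t (w t) := by
  classical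
  rw [prod_pow_eq_pow_sum]
  have h1 : ∑ k : Key D, (E a b w k (e k)).card =
      (univ.filter (fun t => Live (key a b w t) ∧ (w t).1 = e (key a b w t))).card := by
    rw [card_eq_sum_card_fiberwise (f := fun t => key a b w t) (t := univ)
      (fun _ _ => mem_univ _)]
    refine sum_congr rfl (fun k _ => ?_)
    congr 1
    ext t
    unfold E
    simp only [mem_filter, mem_univ, true_and]
    constructor
    · rintro ⟨⟨h1, h2⟩, h3⟩
      rw [h1]
      exact ⟨⟨h2, h3⟩, rfl⟩
    · rintro ⟨⟨h1, h2⟩, h3⟩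
      rw [h3] at h1 h2
      exact ⟨⟨h3, h1⟩, h2⟩
  rw [h1]
  unfold fac
  rw [prod_ite]
  simp only [prod_const_one, mul_one, prod_const]
  rfl

lemma mgf (a b : Fin m → Fin D) (l : ℝ) (hl : 1 ≤ l) :
    ∑ w : Fin m → ZMod 2 × ZMod 2, l ^ (dg a b w) ≤
      4 ^ (D ^ 2) * ∏ t : Fin m, (if a t = b t then 3 + l else 2 + 2 * l) := by
  classical
  have hl0 : 0 < l := by linarith
  have h1 : ∀ w : Fin m → ZMod 2 × ZMod 2, l ^ (dg a b w) ≤
      ∑ e : Key D → ZMod 2, ∏ t, fac a b l e t (w t) := by
    intro w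
    unfold dg
    rw [← prod_pow_eq_pow_sum]
    have h2 : ∏ k : Key D, l ^ (max (E a b w k 0).card (E a b w k 1).card) ≤
        ∏ k : Key D, ∑ c : ZMod 2, l ^ (E a b w k c).card := by
      refine prod_le_prod (fun k _ => by positivity) (fun k _ => ?_)
      have hu : (univ : Finset (ZMod 2)) = {0, 1} := by decide
      rw [hu, sum_pair (by decide)]
      rcases le_total (E a b w k 0).card (E a b w k 1).card with h | h
      · rw [max_eq_right h]
        have : 0 ≤ l ^ (E a b w k 0).card := by positivity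
        linarith
      · rw [max_eq_left h]
        have : 0 ≤ l ^ (E a b w k 1).card := by positivity
        linarith
    refine h2.trans (le_of_eq ?_)
    rw [prod_univ_sum, Fintype.piFinset_univ]
    exact sum_congr rfl (fun e _ => prod_E a b l e w)
  refine (sum_le_sum (fun w _ => h1 w)).trans ?_
  rw [sum_comm]
  have h3 : ∀ e : Key D → ZMod 2, ∑ w : Fin m → ZMod 2 × ZMod 2, ∏ t, fac a b l e t (w t) =
      ∏ t : Fin m, (if a t = b t then 3 + l else 2 + 2 * l) := by
    intro e
    have h4 := prod_univ_sum (fun _ : Fin m => (univ : Finset (ZMod 2 × ZMod 2)))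
      (fun t c => fac a b l e t c)
    rw [Fintype.piFinset_univ] at h4
    rw [← h4]
    exact prod_congr rfl (fun t _ => fac_sum a b l e t)
  rw [sum_congr rfl (fun e _ => h3 e), sum_const, card_univ, nsmul_eq_mul]
  refine le_of_eq ?_
  congr 1
  rw [Fintype.card_fun, ZMod.card, Fintype.card_prod, Fintype.card_prod, Fintype.card_fin,
    ZMod.card]
  push_cast
  rw [show D * (D * 2) = 2 * D ^ 2 by ring, pow_mul]
  norm_num

/-- the number of vectors whose certificate has degree at least `r` -/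
lemma bad_count (a b : Fin m → Fin D) (l : ℝ) (hl : 1 ≤ l) (r : ℕ) :
    ((univ.filter (fun w : Fin m → ZMod 2 × ZMod 2 => r ≤ dg a b w)).card : ℝ) * l ^ r ≤
      4 ^ (D ^ 2) * ∏ t : Fin m, (if a t = b t then 3 + l else 2 + 2 * l) := by
  classical
  refine le_trans ?_ (mgf a b l hl)
  rw [card_filter]
  push_cast
  rw [sum_mul]
  refine sum_le_sum (fun w _ => ?_)
  split_ifs with h
  · rw [one_mul]
    exact pow_le_pow_right₀ hl h
  · rw [zero_mul]
    have : 0 < l := by linarith
    positivity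

end Pool.Agent.H69d
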