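import Pool.Agent.H69d.Std

/-!
A system of pairs with many pairs inside the classes of a given partition.
-/

set_option autoImplicit false

namespace Pool.Agent.H69d

open Finset Pool.Agent.R288.PC

variable {n m D : ℕ}

/-- `t + 1` or `-(t + 1)` modulo `2 m + 1` -/
def off (m : ℕ) (tb : Fin m × Bool) : ZMod (2 * m + 1) :=
  if tb.2 then -((tb.1 : ℕ) + 1 : ZMod (2 * m + 1)) else ((tb.1 : ℕ) + 1 : ZMod (2 * m + 1))

lemma cast_eq {a b : ℕ} (ha : a < 2 * m + 1) (hb : b < 2 * m + 1)
    (h : (a : ZMod (2 * m + 1)) = b) : a = b := by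
  rw [ZMod.natCast_eq_natCast_iff'] at h
  rwa [Nat.mod_eq_of_lt ha, Nat.mod_eq_of_lt hb] at h

lemma cast_add_ne {a b : ℕ} (h0 : 0 < a + b) (h1 : a + b < 2 * m + 1)
    (h : (a : ZMod (2 * m + 1)) = -(b : ZMod (2 * m + 1))) : False := by
  have h2 : ((a + b : ℕ) : ZMod (2 * m + 1)) = ((0 : ℕ) : ZMod (2 * m + 1)) := by
    push_cast
    rw [h]
    simp
  have := cast_eq h1 (by omega) h2
  omega

lemma off_inj (m : ℕ) : Function.Injective (off m) := by
  rintro ⟨t, b⟩ ⟨t', b'⟩ h
  have ht := t.2
  have ht' := t'.2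
  unfold off at h
  cases b <;> cases b'
  · simp only [Bool.false_eq_true, if_false] at h
    have := cast_eq (m := m) (a := t + 1) (b := t' + 1) (by omega) (by omega) (by push_cast; exact h)
    rw [Prod.mk.injEq]
    exact ⟨Fin.ext (by omega), rfl⟩
  · simp only [Bool.false_eq_true, if_false, if_true] at h
    exact (cast_add_ne (m := m) (a := t + 1) (b := t' + 1) (by omega) (by omega)
      (by push_cast; exact h)).elim
  · simp only [Bool.false_eq_true, if_false, if_true] at h
    exact (cast_add_ne (m := m) (a := t' + 1) (b := t + 1) (by omega) (by omega)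
      (by push_cast; exact h.symm)).elim
  · simp only [if_true, neg_inj] at h
    have := cast_eq (m := m) (a := t + 1) (b := t' + 1) (by omega) (by omega) (by push_cast; exact h)
    rw [Prod.mk.injEq]
    exact ⟨Fin.ext (by omega), rfl⟩

lemma off_ne (m : ℕ) (tb : Fin m × Bool) : off m tb ≠ 0 := by
  obtain ⟨t, b⟩ := tb
  have ht := t.2
  intro h
  unfold off at h
  cases b
  · simp only [Bool.false_eq_true, if_false] at h
    have := cast_eq (m := m) (a := t + 1) (b := 0) (by omega) (by omega) (by push_cast; exact h)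
    omega
  · simp only [if_true, neg_eq_zero] at h
    have := cast_eq (m := m) (a := t + 1) (b := 0) (by omega) (by omega) (by push_cast; exact h)
    omega

lemma off_image (m : ℕ) : univ.map ⟨off m, off_inj m⟩ = (univ.erase 0 : Finset (ZMod (2 * m + 1))) := by
  apply eq_of_subset_of_card_le
  · intro z hz
    rw [mem_map] at hz
    obtain ⟨tb, _, rfl⟩ := hz
    exact mem_erase.2 ⟨off_ne m tb, mem_univ _⟩
  · rw [card_erase_of_mem (mem_univ _), card_map, card_univ, card_univ, ZMod.card,
      Fintype.card_prod, Fintype.card_fin, Fintype.card_bool]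
    omega

lemma two_inj {a b : ZMod (2 * m + 1)} (h : a + a = b + b) : a = b := by
  have h2 : ((m + 1 : ℕ) : ZMod (2 * m + 1)) * (a + a) = (m + 1 : ℕ) * (b + b) := by rw [h]
  have h3 : ∀ c : ZMod (2 * m + 1), ((m + 1 : ℕ) : ZMod (2 * m + 1)) * (c + c) = c := by
    intro c
    have h4 : ((2 * m + 1 : ℕ) : ZMod (2 * m + 1)) = 0 := ZMod.natCast_self _
    push_cast at h4 ⊢
    linear_combination c * h4
  rwa [h3, h3] at h2

/-- the sum over the shifts of the number of pairs inside the classes -/
lemma mono_sum (c : ZMod (2 * m + 1) → Fin D) :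
    ∑ s : ZMod (2 * m + 1), (1 + 2 * (univ.filter (fun t : Fin m =>
      c (s + off m (t, false)) = c (s + off m (t, true)))).card) =
    ∑ j : Fin D, (univ.filter (fun i => c i = j)).card ^ 2 := by
  classical
  have h1 : ∀ s : ZMod (2 * m + 1), 1 + 2 * (univ.filter (fun t : Fin m =>
      c (s + off m (t, false)) = c (s + off m (t, true)))).card =
      (univ.filter (fun z : ZMod (2 * m + 1) => c (s + z) = c (s - z))).card := by
    intro s
    have h2 : (univ.filter (fun z : ZMod (2 * m + 1) => c (s + z) = c (s - z))).card =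
        1 + ((univ.erase 0).filter (fun z : ZMod (2 * m + 1) => c (s + z) = c (s - z))).card := by
      rw [← insert_erase (mem_univ (0 : ZMod (2 * m + 1))), filter_insert,
        if_pos (by rw [add_zero, sub_zero]), erase_insert (notMem_erase _ _),
        card_insert_of_notMem (by simp)]
      ring
    rw [h2, ← off_image, filter_map, card_map, card_filter, card_filter, Fintype.sum_prod_type,
      mul_sum]
    congr 1
    refine sum_congr rfl (fun t _ => ?_)
    rw [Fintype.sum_bool]
    simp only [Function.comp, Function.Embedding.coeFn_mk]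
    have e : off m (t, true) = - off m (t, false) := by simp [off]
    have e1 : c (s - off m (t, true)) = c (s + off m (t, false)) := by
      rw [e, sub_neg_eq_add]
    have e2 : c (s - off m (t, false)) = c (s + off m (t, true)) := by
      rw [e, sub_eq_add_neg]
    by_cases h : c (s + off m (t, false)) = c (s + off m (t, true))
    · have k1 : c (s + off m (t, true)) = c (s - off m (t, true)) := by rw [e1]; exact h.symm
      have k2 : c (s + off m (t, false)) = c (s - off m (t, false)) := by rw [e2]; exact h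
      rw [if_pos h, if_pos k1, if_pos k2]
      norm_num
    · have k1 : ¬ c (s + off m (t, true)) = c (s - off m (t, true)) := by
        rw [e1]; exact fun k => h k.symm
      have k2 : ¬ c (s + off m (t, false)) = c (s - off m (t, false)) := by rw [e2]; exact h
      rw [if_neg h, if_neg k1, if_neg k2]
      norm_num
  rw [sum_congr rfl (fun s _ => h1 s)]
  have h3 : ∑ s : ZMod (2 * m + 1), (univ.filter (fun z : ZMod (2 * m + 1) =>
      c (s + z) = c (s - z))).card =
      (univ.filter (fun q : ZMod (2 * m + 1) × ZMod (2 * m + 1) =>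
        c (q.1 + q.2) = c (q.1 - q.2))).card := by
    rw [card_filter, Fintype.sum_prod_type]
    exact sum_congr rfl (fun s _ => card_filter _ _)
  have h4 : (univ.filter (fun q : ZMod (2 * m + 1) × ZMod (2 * m + 1) =>
        c (q.1 + q.2) = c (q.1 - q.2))).card =
      (univ.filter (fun q : ZMod (2 * m + 1) × ZMod (2 * m + 1) => c q.1 = c q.2)).card := by
    have hinj : Function.Injective
        (fun q : ZMod (2 * m + 1) × ZMod (2 * m + 1) => (q.1 + q.2, q.1 - q.2)) := by
      intro q q' h
      rw [Prod.mk.injEq] at h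
      have k1 : q.1 = q'.1 := by
        apply two_inj (m := m)
        linear_combination h.1 + h.2
      have k2 : q.2 = q'.2 := by
        have := h.1
        rw [k1] at this
        exact add_left_cancel this
      exact Prod.ext k1 k2
    have hbij := (Finite.injective_iff_bijective).1 hinj
    refine card_bij (fun q _ => (q.1 + q.2, q.1 - q.2)) ?_ ?_ ?_
    · intro q hq
      rw [mem_filter] at hq ⊢
      exact ⟨mem_univ _, hq.2⟩
    · intro q _ q' _ h
      exact hinj h
    · intro q hq
      obtain ⟨q', hq'⟩ := hbij.2 q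
      refine ⟨q', ?_, hq'⟩
      rw [mem_filter] at hq ⊢
      refine ⟨mem_univ _, ?_⟩
      rw [← hq'] at hq
      exact hq.2
  rw [h3, h4, card_eq_sum_card_fiberwise (f := fun q => c q.1) (t := univ)
    (fun _ _ => mem_univ _)]
  refine sum_congr rfl (fun j _ => ?_)
  rw [sq, ← card_product, filter_filter]
  congr 1
  ext q
  simp only [mem_filter, mem_univ, true_and, mem_product]
  constructor
  · rintro ⟨k1, k2⟩
    exact ⟨k2, by rw [← k1, k2]⟩
  · rintro ⟨k1, k2⟩
    exact ⟨by rw [k1, k2], k1⟩

/-- some shift has many pairs inside the classes -/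
lemma exists_shift (hD : 1 ≤ D) (hm : 2 * D ≤ m) (c : ZMod (2 * m + 1) → Fin D) :
    ∃ s : ZMod (2 * m + 1), 3 * (m : ℝ) / (4 * D) ≤ ((univ.filter (fun t : Fin m =>
      c (s + off m (t, false)) = c (s + off m (t, true)))).card : ℝ) := by
  classical
  by_contra hcon
  push Not at hcon
  have hD1 : (1 : ℝ) ≤ D := by exact_mod_cast hD
  have hmD : 2 * (D : ℝ) ≤ m := by exact_mod_cast hm
  have h1 := mono_sum c
  have h2 : (∑ j : Fin D, ((univ.filter (fun i => c i = j)).card : ℝ)) = 2 * m + 1 := by
    have := card_eq_sum_card_fiberwise (s := (univ : Finset (ZMod (2 * m + 1)))) (f := c)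
      (t := univ) (fun _ _ => mem_univ _)
    rw [card_univ, ZMod.card] at this
    have h := this.symm
    have h' : ((∑ j : Fin D, (univ.filter (fun i => c i = j)).card : ℕ) : ℝ) =
      ((2 * m + 1 : ℕ) : ℝ) := by rw [h]
    push_cast at h'
    exact h'
  have h3 : (2 * (m : ℝ) + 1) ^ 2 ≤ D * ∑ j : Fin D, ((univ.filter (fun i => c i = j)).card : ℝ) ^ 2 := by
    rw [← h2]
    have := sq_sum_le_card_mul_sum_sq (s := (univ : Finset (Fin D)))
      (f := fun j => ((univ.filter (fun i => c i = j)).card : ℝ))
    rwa [card_univ, Fintype.card_fin] at this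
  have h4 : (∑ j : Fin D, ((univ.filter (fun i => c i = j)).card : ℝ) ^ 2) =
      ∑ s : ZMod (2 * m + 1), (1 + 2 * ((univ.filter (fun t : Fin m =>
        c (s + off m (t, false)) = c (s + off m (t, true)))).card : ℝ)) := by
    exact_mod_cast h1.symm
  have h5 : ∑ s : ZMod (2 * m + 1), (1 + 2 * ((univ.filter (fun t : Fin m =>
        c (s + off m (t, false)) = c (s + off m (t, true)))).card : ℝ)) <
      ∑ s : ZMod (2 * m + 1), (1 + 2 * (3 * (m : ℝ) / (4 * D))) := by
    refine sum_lt_sum_of_nonempty univ_nonempty (fun s _ => ?_)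
    have := hcon s
    linarith
  rw [sum_const, card_univ, ZMod.card, nsmul_eq_mul] at h5
  push_cast at h5
  rw [h4] at h3
  have h6 : (2 * (m : ℝ) + 1) ^ 2 < D * ((2 * m + 1) * (1 + 2 * (3 * (m : ℝ) / (4 * D)))) :=
    lt_of_le_of_lt h3 (mul_lt_mul_of_pos_left h5 (by linarith))
  have h7 : D * ((2 * (m : ℝ) + 1) * (1 + 2 * (3 * (m : ℝ) / (4 * D)))) =
      (2 * m + 1) * (D + 3 * m / 2) := by
    field_simp
    ring
  rw [h7, sq] at h6
  have h8 := lt_of_mul_lt_mul_left h6 (by positivity)
  linarith

/-- the pairs with sum `2 s` -/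
def shiftPairs (hn : 2 * m + 1 ≤ n) (s : ZMod (2 * m + 1)) : Fin m × Bool ↪ Fin n :=
  ⟨fun tb => Fin.castLE hn (s + off m tb : ZMod (2 * m + 1)), fun _ _ h =>
    off_inj m (add_left_cancel (Fin.castLE_injective hn h))⟩

end Pool.Agent.H69d
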