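import Pool.Agent.H69d.Fam

/-!
Corner-free sets whose lines are unions of few block-symmetric sets with low-degree certificates.
-/

set_option autoImplicit false

namespace Pool.Agent.H69d

open Finset Pool.Agent.R288.PC

variable {n m D : ℕ}

/-- the bound -/
noncomputable def bnd (D m : ℕ) : ℝ :=
  Real.exp (-(m / (512 * (D : ℝ) ^ 2))) + 4 ^ (D ^ 2) * Real.exp (-(m / (128 * (D : ℝ) ^ 2)))

/-- the points of `Q` lie in one of the `T` good parts of their rows -/
def Covers (K : Type) [Field K] (D k T : ℕ) (R : V n → Set (V n)) (Q : Finset (V n × V n)) : Prop :=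
  ∃ S C : V n → Fin T → Set (V n), (∀ s t, ∃ col : Fin n → Fin D, Dec col (S s t)) ∧
    (∀ s t, Crt K k (C s t)) ∧ (∀ s t, S s t ∩ C s t ⊆ R s) ∧
    ∀ a ∈ Q, ∃ t, a.2 ∈ S a.1 t ∩ C a.1 t

lemma main_rows (K : Type) [Field K] (hD : 1 ≤ D) (k T : ℕ) (hm : 2 * D ≤ m)
    (hn : 2 * m + 1 ≤ n) (hk : (k : ℝ) ≤ m / (32 * D))
    (A : Finset (V n × V n)) (hA : CornerFree A) (Q : Finset (V n × V n))
    (h : Covers K D k T (fun x => {y | (x, y) ∈ A}) Q) :
    (Q.card : ℝ) ≤ T * ((2 * m + 1) * (4 ^ n * bnd D m)) := by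
  classical
  obtain ⟨S, C, hS, hC, hR, hQ⟩ := h
  choose col hcol using hS
  choose σ hσ using fun (x : V n) (t : Fin T) =>
    exists_shift hD hm (fun z : ZMod (2 * m + 1) => col x t (Fin.castLE hn z))
  have hQA : ∀ a ∈ Q, a ∈ A := by
    intro a ha
    obtain ⟨t, ht⟩ := hQ a ha
    exact hR _ _ ht
  let B : Fin T × ZMod (2 * m + 1) → Finset (V n × V n) := fun q =>
    Q.filter (fun a => a.2 ∈ S a.1 q.1 ∧ a.2 ∈ C a.1 q.1 ∧ σ a.1 q.1 = q.2)
  have h1 : Q ⊆ univ.biUnion B := by
    intro a ha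
    obtain ⟨t, k1, k2⟩ := hQ a ha
    rw [mem_biUnion]
    exact ⟨(t, σ a.1 t), mem_univ _, mem_filter.2 ⟨ha, k1, k2, rfl⟩⟩
  have h2 : ∀ q, ((B q).card : ℝ) ≤ 4 ^ n * bnd D m := by
    intro q
    refine std K hD k hk (shiftPairs hn q.2) A hA (B q)
      (fun a ha => hQA a (mem_filter.1 ha).1) (fun x => col x q.1) (fun x => S x q.1)
      (fun x => C x q.1) ?_ (fun x => hcol x q.1) (fun x => hC x q.1)
    intro a ha
    obtain ⟨k0, k1, k2, k3⟩ := mem_filter.1 ha
    refine ⟨fun y hy1 hy2 => hR a.1 q.1 ⟨hy1, hy2⟩, k1, k2, ?_⟩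
    have := hσ a.1 q.1
    rw [k3] at this
    exact this
  have h3 : (Q.card : ℝ) ≤ ∑ q, ((B q).card : ℝ) := by
    have := (card_le_card h1).trans card_biUnion_le
    exact_mod_cast this
  refine (h3.trans (sum_le_sum (fun q _ => h2 q))).trans (le_of_eq ?_)
  rw [sum_const, card_univ, Fintype.card_prod, Fintype.card_fin, ZMod.card, nsmul_eq_mul]
  push_cast
  ring

/-- the explicit bound -/
noncomputable def bound (n D : ℕ) : ℝ :=
  Real.exp (-((n - 2) / (1024 * (D : ℝ) ^ 2))) +
    4 ^ (D ^ 2) * Real.exp (-((n - 2) / (256 * (D : ℝ) ^ 2)))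

lemma explicit (K : Type) [Field K] (hD : 1 ≤ D) (k T : ℕ) (hn : 64 * D * (k + 1) + 2 ≤ n)
    (A : Finset (V n × V n)) (hA : CornerFree A) (Q : Finset (V n × V n))
    (h : Covers K D k T (fun x => {y | (x, y) ∈ A}) Q) :
    (Q.card : ℝ) ≤ T * n * 4 ^ n * bound n D := by
  have hD1 : (1 : ℝ) ≤ D := by exact_mod_cast hD
  obtain ⟨m, hm⟩ : ∃ m : ℕ, m = (n - 1) / 2 := ⟨_, rfl⟩
  have hm1 : 2 * m + 1 ≤ n := by omega
  have hm2 : n ≤ 2 * m + 2 := by omega
  have hm3 : 32 * D * (k + 1) ≤ m := by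
    have : 64 * D * (k + 1) = 2 * (32 * D * (k + 1)) := by ring
    omega
  have hm4 : 2 * D ≤ m := by
    refine le_trans ?_ hm3
    nlinarith
  have hk : (k : ℝ) ≤ m / (32 * D) := by
    rw [le_div_iff₀ (by positivity)]
    have : k * (32 * D) ≤ m := by nlinarith
    exact_mod_cast this
  have h1 := main_rows K hD k T hm4 hm1 hk A hA Q h
  have h2 : ((n : ℝ) - 2) / 2 ≤ m := by
    have : (n : ℝ) ≤ 2 * m + 2 := by exact_mod_cast hm2
    linarith
  have h3 : ((2 : ℝ) * m + 1) ≤ n := by exact_mod_cast hm1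
  have h4 : bnd D m ≤ bound n D := by
    unfold bnd bound
    refine add_le_add (Real.exp_le_exp.2 ?_)
      (mul_le_mul_of_nonneg_left (Real.exp_le_exp.2 ?_) (by positivity))
    · rw [neg_le_neg_iff, div_le_div_iff₀ (by positivity) (by positivity)]
      nlinarith [sq_nonneg (D : ℝ), mul_pos (show (0 : ℝ) < D by linarith)
        (show (0 : ℝ) < D by linarith)]
    · rw [neg_le_neg_iff, div_le_div_iff₀ (by positivity) (by positivity)]
      nlinarith [sq_nonneg (D : ℝ), mul_pos (show (0 : ℝ) < D by linarith)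
        (show (0 : ℝ) < D by linarith)]
  have h5 : 0 ≤ bnd D m := by unfold bnd; positivity
  calc (Q.card : ℝ) ≤ T * ((2 * m + 1) * (4 ^ n * bnd D m)) := h1
    _ ≤ T * (n * (4 ^ n * bound n D)) := by
        refine mul_le_mul_of_nonneg_left ?_ (Nat.cast_nonneg _)
        refine mul_le_mul h3 (mul_le_mul_of_nonneg_left h4 (by positivity)) (by positivity)
          (Nat.cast_nonneg _)
    _ = _ := by ring

/-! ### The three directions -/

/-- the directions of the three families of lines -/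
inductive Direction : Type
  | row : Direction
  | column : Direction
  | diagonal : Direction

/-- the rows `{y : (s, y) ∈ A}`, the columns `{x : (x, s) ∈ A}` and the diagonals
`{y : (s + y, y) ∈ A}` of `A` -/
def line (A : Finset (V n × V n)) : Direction → V n → Set (V n)
  | .row, s => {y | (s, y) ∈ A}
  | .column, s => {x | (x, s) ∈ A}
  | .diagonal, s => {y | (s + y, y) ∈ A}

/-- the line of the given direction through the point `a` has the number `number k a` -/
def number : Direction → V n × V n → V n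
  | .row, a => a.1
  | .column, a => a.2
  | .diagonal, a => a.1 + a.2

/-- the point `a` on its line of the given direction -/
def place : Direction → V n × V n → V n
  | .row, a => a.2
  | .column, a => a.1
  | .diagonal, a => a.2

/-- every point of `Q` lies in one of the `T` good parts of its line -/
def CoversIn (K : Type) [Field K] (D k T : ℕ) (A : Finset (V n × V n)) (dir : Direction)
    (Q : Finset (V n × V n)) : Prop :=
  ∃ S C : V n → Fin T → Set (V n), (∀ s t, ∃ col : Fin n → Fin D, Dec col (S s t)) ∧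
    (∀ s t, Crt K k (C s t)) ∧ (∀ s t, S s t ∩ C s t ⊆ line A dir s) ∧
    ∀ a ∈ Q, ∃ t, place dir a ∈ S (number dir a) t ∩ C (number dir a) t

lemma explicit_dir (K : Type) [Field K] (hD : 1 ≤ D) (k T : ℕ) (hn : 64 * D * (k + 1) + 2 ≤ n)
    (A : Finset (V n × V n)) (hA : CornerFree A) (dir : Direction) (Q : Finset (V n × V n))
    (h : CoversIn K D k T A dir Q) :
    (Q.card : ℝ) ≤ T * n * 4 ^ n * bound n D := by
  obtain ⟨S, C, hS, hC, hR, hQ⟩ := h
  cases dir with
  | row => exact explicit K hD k T hn A hA Q ⟨S, C, hS, hC, hR, hQ⟩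
  | column =>
    have := explicit K hD k T hn _ (flip A hA) (Q.map (Equiv.prodComm (V n) (V n)).toEmbedding)
      ⟨S, C, hS, hC, ?_, ?_⟩
    · rwa [card_map] at this
    · intro s t y hy
      have h1 := hR s t hy
      simp only [Set.mem_ofPred_eq, mem_map_equiv]
      exact h1
    · rintro ⟨a, b⟩ ha
      rw [mem_map_equiv] at ha
      exact hQ _ ha
  | diagonal =>
    have := explicit K hD k T hn _ (sheared A hA) (Q.map (shear n).toEmbedding)
      ⟨S, C, hS, hC, ?_, ?_⟩
    · rwa [card_map] at this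
    · intro s t y hy
      have h1 := hR s t hy
      simp only [Set.mem_ofPred_eq, mem_map_equiv]
      exact h1
    · rintro ⟨a, b⟩ ha
      rw [mem_map_equiv] at ha
      obtain ⟨t, ht⟩ := hQ _ ha
      refine ⟨t, ?_⟩
      have e : number Direction.diagonal ((shear n).symm (a, b)) = a := by
        change a + b + b = a
        rw [add_assoc, neg_self, add_zero]
      rw [e] at ht
      exact ht

end Pool.Agent.H69d
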