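import Pool.Agent.H69d.Count

/-!
The bound for one system of pairs.
-/

set_option autoImplicit false

namespace Pool.Agent.H69d

open Finset Pool.Agent.R288.PC

variable {n m D : ℕ}

/-! ### Fibres -/

/-- a vector with given values at the coordinates of the pairs -/
noncomputable def ext (p : Fin m × Bool ↪ Fin n) (w : Fin m → ZMod 2 × ZMod 2) : V n :=
  Function.extend p (fun tb => if tb.2 then (w tb.1).2 else (w tb.1).1) 0

lemma vals_add_ext (p : Fin m × Bool ↪ Fin n) (w : Fin m → ZMod 2 × ZMod 2) (y : V n) :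
    vals p (y + ext p w) = vals p y + w := by
  funext t
  unfold vals ext
  simp only [Pi.add_apply, p.injective.extend_apply]
  rfl

lemma fiber (p : Fin m × Bool ↪ Fin n) (w : Fin m → ZMod 2 × ZMod 2) :
    (univ.filter (fun y : V n => vals p y = w)).card =
      (univ.filter (fun y : V n => vals p y = 0)).card := by
  symm
  refine card_bij (fun y _ => y + ext p w) ?_ ?_ ?_
  · intro y hy
    rw [mem_filter] at hy ⊢
    exact ⟨mem_univ _, by rw [vals_add_ext, hy.2, zero_add]⟩
  · intro y _ y' _ h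
    exact add_right_cancel h
  · intro y hy
    rw [mem_filter] at hy
    refine ⟨y + ext p w, ?_, ?_⟩
    · rw [mem_filter]
      refine ⟨mem_univ _, ?_⟩
      rw [vals_add_ext, hy.2]
      funext t
      have h2 : ∀ c : ZMod 2, c + c = 0 := by decide
      exact Prod.ext (h2 _) (h2 _)
    · rw [add_assoc, neg_self, add_zero]

lemma fiber_count (p : Fin m × Bool ↪ Fin n) (P : (Fin m → ZMod 2 × ZMod 2) → Prop)
    [DecidablePred P] :
    (univ.filter (fun y : V n => P (vals p y))).card * 4 ^ m =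
      (univ.filter (fun w => P w)).card * 2 ^ n := by
  classical
  have h1 : ∀ Q : (Fin m → ZMod 2 × ZMod 2) → Prop, ∀ _ : DecidablePred Q,
      (univ.filter (fun y : V n => Q (vals p y))).card =
      (univ.filter (fun w => Q w)).card * (univ.filter (fun y : V n => vals p y = 0)).card := by
    intro Q _
    rw [card_eq_sum_card_fiberwise (f := fun y => vals p y) (t := univ.filter (fun w => Q w))]
    · rw [sum_congr rfl (g := fun _ => (univ.filter (fun y : V n => vals p y = 0)).card),
        sum_const, smul_eq_mul]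
      intro w hw
      rw [← fiber p w, filter_filter]
      congr 1
      ext y
      simp only [mem_filter, mem_univ, true_and]
      constructor
      · rintro ⟨_, h⟩; exact h
      · intro h
        rw [h]
        exact ⟨(mem_filter.1 hw).2, rfl⟩
    · intro y hy
      simp only [coe_filter, mem_univ, true_and, Set.mem_ofPred_eq] at hy ⊢
      exact hy
  have h2 := h1 (fun _ => True) (fun _ => isTrue trivial)
  simp only [filter_true, card_univ, Fintype.card_fun, ZMod.card, Fintype.card_fin,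
    Fintype.card_prod] at h2
  rw [h1 P inferInstance, h2]
  norm_num
  ring

/-! ### Certificates on the cosets -/

lemma crd_pull (K : Type) [Field K] (p : Fin m × Bool ↪ Fin n) (y : V n) (i : Fin n) :
    (fun v : V m => if (y + L p v) i = 1 then (1 : K) else 0) ∈ Deg K m 1 := by
  classical
  by_cases h : ∃ tb, p tb = i
  · obtain ⟨tb, rfl⟩ := h
    rcases zmod2 (y (p tb)) with h0 | h0
    · convert coord_mem (K := K) tb.1 using 1
      funext v
      rw [Pi.add_apply, L_apply, h0, zero_add]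
    · have := (Deg K m 1).sub_mem (one_mem (K := K) (n := m) 1) (coord_mem (K := K) tb.1)
      convert this using 1
      funext v
      rw [Pi.add_apply, L_apply, h0, Pi.sub_apply]
      rcases zmod2 (v tb.1) with h1 | h1
      · rw [h1]
        simp
      · rw [h1, if_neg (by decide), if_pos rfl, sub_self]
  · have e : (fun v : V m => if (y + L p v) i = 1 then (1 : K) else 0) =
        (if y i = 1 then (1 : K) else 0) • (fun _ : V m => (1 : K)) := by
      funext v
      rw [Pi.add_apply, L_off p v i h, add_zero, Pi.smul_apply, smul_eq_mul, mul_one]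
    rw [e]
    exact (Deg K m 1).smul_mem _ (one_mem 1)

lemma pull (K : Type) [Field K] (p : Fin m × Bool ↪ Fin n) (y : V n) (k : ℕ) {f : V n → K}
    (hf : f ∈ Deg K n k) : (fun v : V m => f (y + L p v)) ∈ Deg K m k := by
  classical
  unfold Deg at hf
  induction hf using Submodule.span_induction with
  | mem f hf =>
    obtain ⟨I, hI, rfl⟩ := hf
    have h1 := prod_mem (K := K) I
      (fun (i : Fin n) (v : V m) => if (y + L p v) i = 1 then (1 : K) else 0)
      (fun i _ => crd_pull K p y i)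
    refine deg_mono hI ?_
    convert h1 using 1
    funext v
    unfold mono
    by_cases h : ∀ i ∈ I, (y + L p v) i = 1
    · rw [if_pos h, prod_congr rfl (fun i hi => if_pos (h i hi))]
      simp
    · rw [if_neg h]
      push Not at h
      obtain ⟨i, hi, h⟩ := h
      exact (prod_eq_zero hi (if_neg h)).symm
  | zero => simp only [Pi.zero_apply]; exact (Deg K m k).zero_mem
  | add g g' _ _ h h' => exact (Deg K m k).add_mem h h'
  | smul c g _ h => exact (Deg K m k).smul_mem c h

/-! ### Numbers -/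

lemma fac_mono (h : ℝ) (h0 : 0 ≤ h) (h1 : h ≤ 1) :
    3 + Real.exp h ≤ 4 * Real.exp (h / 2 + h ^ 2 / 8 - h / 6) := by
  have e1 : 1 + h ≤ Real.exp h := by have := Real.add_one_le_exp h; linarith
  have h2 : (1 + Real.exp h) / 2 ≤ Real.exp (h / 2 + h ^ 2 / 8) := by
    have e2 : (1 + Real.exp h) / 2 = Real.exp (h / 2) * Real.cosh (h / 2) := by
      rw [Real.cosh_eq]
      have k1 : Real.exp (h / 2) * Real.exp (h / 2) = Real.exp h := by
        rw [← Real.exp_add]; congr 1; ring
      have k2 : Real.exp (h / 2) * Real.exp (-(h / 2)) = 1 := by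
        rw [← Real.exp_add]; simp
      linear_combination (-1 / 2) * k1 + (-1 / 2) * k2
    rw [e2, Real.exp_add]
    refine mul_le_mul_of_nonneg_left ?_ (Real.exp_pos _).le
    refine (Real.cosh_le_exp_half_sq _).trans (Real.exp_le_exp.2 (le_of_eq ?_))
    ring
  have h3 : (3 + Real.exp h) / (2 + 2 * Real.exp h) ≤ Real.exp (-(h / 6)) := by
    have k1 : (3 + Real.exp h) / (2 + 2 * Real.exp h) ≤ 1 - h / 6 := by
      rw [div_le_iff₀ (by linarith)]
      nlinarith
    have k2 := Real.add_one_le_exp (-(h / 6))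
    linarith
  have e3 : 3 + Real.exp h =
      4 * ((1 + Real.exp h) / 2 * ((3 + Real.exp h) / (2 + 2 * Real.exp h))) := by
    have : (2 + 2 * Real.exp h) ≠ 0 := by linarith
    field_simp
    norm_num
  rw [e3, show h / 2 + h ^ 2 / 8 - h / 6 = (h / 2 + h ^ 2 / 8) + -(h / 6) by ring, Real.exp_add]
  refine mul_le_mul_of_nonneg_left ?_ (by norm_num)
  refine mul_le_mul h2 h3 ?_ (Real.exp_pos _).le
  have := Real.exp_pos h
  positivity

lemma fac_mixed (h : ℝ) : 2 + 2 * Real.exp h ≤ 4 * Real.exp (h / 2 + h ^ 2 / 8) := by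
  have e2 : 2 + 2 * Real.exp h = 4 * (Real.exp (h / 2) * Real.cosh (h / 2)) := by
    rw [Real.cosh_eq]
    have k1 : Real.exp (h / 2) * Real.exp (h / 2) = Real.exp h := by
      rw [← Real.exp_add]; congr 1; ring
    have k2 : Real.exp (h / 2) * Real.exp (-(h / 2)) = 1 := by
      rw [← Real.exp_add]; simp
    linear_combination (-2) * k1 + (-2) * k2
  rw [e2, Real.exp_add]
  refine mul_le_mul_of_nonneg_left ?_ (by norm_num)
  refine mul_le_mul_of_nonneg_left ?_ (Real.exp_pos _).le
  refine (Real.cosh_le_exp_half_sq _).trans (Real.exp_le_exp.2 (le_of_eq ?_))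
  ring

/-- the fraction of the vectors with a certificate of large degree -/
lemma bad_real (hD : 1 ≤ D) (a b : Fin m → Fin D) (r : ℕ)
    (hr : (1 / 2 - 1 / (16 * (D : ℝ))) * m ≤ r)
    (hM : 3 * (m : ℝ) / (4 * D) ≤ ((univ.filter (fun t => a t = b t)).card : ℝ)) :
    ((univ.filter (fun w : Fin m → ZMod 2 × ZMod 2 => r ≤ dg a b w)).card : ℝ) ≤
      4 ^ m * (4 ^ (D ^ 2) * Real.exp (-(m / (128 * (D : ℝ) ^ 2)))) := by
  classical
  have hD1 : (1 : ℝ) ≤ D := by exact_mod_cast hD
  obtain ⟨h, hh⟩ : ∃ h : ℝ, h = 1 / (4 * (D : ℝ)) := ⟨_, rfl⟩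
  have h0 : 0 < h := by rw [hh]; positivity
  have h1 : h ≤ 1 := by
    rw [hh, div_le_one (by positivity)]
    linarith
  have hb := bad_count a b (Real.exp h) (Real.one_le_exp h0.le) r
  have h2 : ∏ t : Fin m, (if a t = b t then 3 + Real.exp h else 2 + 2 * Real.exp h) ≤
      ∏ t : Fin m, 4 * Real.exp (h / 2 + h ^ 2 / 8 - (if a t = b t then h / 6 else 0)) := by
    refine prod_le_prod (fun t _ => ?_) (fun t _ => ?_)
    · have := Real.exp_pos h
      split_ifs <;> positivity
    · split_ifs
      · exact fac_mono h h0.le h1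
      · rw [sub_zero]
        exact fac_mixed h
  have h3 : ∏ t : Fin m, 4 * Real.exp (h / 2 + h ^ 2 / 8 - (if a t = b t then h / 6 else 0)) =
      4 ^ m * Real.exp (m * (h / 2 + h ^ 2 / 8) -
        (univ.filter (fun t => a t = b t)).card * (h / 6)) := by
    rw [prod_mul_distrib, prod_const, card_univ, Fintype.card_fin, ← Real.exp_sum]
    congr 2
    rw [sum_sub_distrib, sum_const, card_univ, Fintype.card_fin, nsmul_eq_mul, sum_ite,
      sum_const, sum_const_zero, add_zero, nsmul_eq_mul]
  rw [h3] at h2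
  have h4 : Real.exp (h * r) * Real.exp (-(h * r)) = 1 := by rw [← Real.exp_add]; simp
  have h5 : (Real.exp h) ^ r = Real.exp (h * r) := by
    rw [← Real.exp_nat_mul]; congr 1; ring
  rw [h5] at hb
  have h6 := hb.trans (mul_le_mul_of_nonneg_left h2 (by positivity))
  calc ((univ.filter (fun w : Fin m → ZMod 2 × ZMod 2 => r ≤ dg a b w)).card : ℝ)
      = ((univ.filter (fun w : Fin m → ZMod 2 × ZMod 2 => r ≤ dg a b w)).card : ℝ) *
          Real.exp (h * r) * Real.exp (-(h * r)) := by rw [mul_assoc, h4, mul_one]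
    _ ≤ 4 ^ (D ^ 2) * (4 ^ m * Real.exp (m * (h / 2 + h ^ 2 / 8) -
        (univ.filter (fun t => a t = b t)).card * (h / 6))) * Real.exp (-(h * r)) :=
        mul_le_mul_of_nonneg_right h6 (Real.exp_pos _).le
    _ = 4 ^ m * (4 ^ (D ^ 2) * Real.exp (m * (h / 2 + h ^ 2 / 8) -
        (univ.filter (fun t => a t = b t)).card * (h / 6) + -(h * r))) := by
        rw [Real.exp_add]; ring
    _ ≤ _ := by
        refine mul_le_mul_of_nonneg_left ?_ (by positivity)
        refine mul_le_mul_of_nonneg_left (Real.exp_le_exp.2 ?_) (by positivity)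
        have k1 : h * ((1 / 2 - 1 / (16 * (D : ℝ))) * m) ≤ h * r :=
          mul_le_mul_of_nonneg_left hr h0.le
        have k2 : 3 * (m : ℝ) / (4 * D) * (h / 6) ≤
            ((univ.filter (fun t => a t = b t)).card : ℝ) * (h / 6) :=
          mul_le_mul_of_nonneg_right hM (by positivity)
        have k3 : (m : ℝ) * (h / 2 + h ^ 2 / 8) - 3 * (m : ℝ) / (4 * D) * (h / 6) -
            h * ((1 / 2 - 1 / (16 * (D : ℝ))) * m) = -(m / (128 * (D : ℝ) ^ 2)) := by
          rw [hh]
          field_simp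
          ring
        linarith

/-! ### The bound for one system of pairs -/

/-- membership depends only on the numbers of ones in the classes -/
def Dec (col : Fin n → Fin D) (S : Set (V n)) : Prop :=
  ∀ y y' : V n, (∀ j, cnt col j y = cnt col j y') → y ∈ S → y' ∈ S

/-- every point has a certificate of degree at most `k` -/
def Crt (K : Type) [Field K] (k : ℕ) (C : Set (V n)) : Prop :=
  ∀ y ∈ C, ∃ h ∈ Deg K n k, h y ≠ 0 ∧ ∀ y', h y' ≠ 0 → y' ∈ C

lemma std (K : Type) [Field K] (hD : 1 ≤ D) (k : ℕ) (hk : (k : ℝ) ≤ m / (32 * D))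
    (p : Fin m × Bool ↪ Fin n)
    (A : Finset (V n × V n)) (hA : CF A) (Q : Finset (V n × V n)) (hQ : Q ⊆ A)
    (col : V n → Fin n → Fin D) (S C : V n → Set (V n))
    (hrow : ∀ a ∈ Q, (∀ y, y ∈ S a.1 → y ∈ C a.1 → (a.1, y) ∈ A) ∧ a.2 ∈ S a.1 ∧ a.2 ∈ C a.1 ∧
      3 * (m : ℝ) / (4 * D) ≤
        ((univ.filter (fun t => fst' (col a.1) p t = snd' (col a.1) p t)).card : ℝ))
    (hS : ∀ x, Dec (col x) (S x)) (hC : ∀ x, Crt K k (C x)) :
    (Q.card : ℝ) ≤ 4 ^ n * (Real.exp (-(m / (512 * (D : ℝ) ^ 2))) +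
      4 ^ (D ^ 2) * Real.exp (-(m / (128 * (D : ℝ) ^ 2)))) := by
  classical
  have hD1 : (1 : ℝ) ≤ D := by exact_mod_cast hD
  have hm0 : (0 : ℝ) ≤ m := Nat.cast_nonneg m
  obtain ⟨r, hr⟩ : ∃ r : ℕ, r = ⌈(1 / 2 - 1 / (16 * (D : ℝ))) * m⌉₊ := ⟨_, rfl⟩
  obtain ⟨N, hN⟩ : ∃ N : ℕ, N = ⌊(1 / 2 - 1 / (32 * (D : ℝ))) * m⌋₊ := ⟨_, rfl⟩
  have hpos : 0 ≤ (1 / 2 - 1 / (32 * (D : ℝ))) * m := by
    refine mul_nonneg ?_ hm0
    rw [sub_nonneg, div_le_div_iff₀ (by positivity) (by norm_num)]
    linarith
  have hr1 : (1 / 2 - 1 / (16 * (D : ℝ))) * m ≤ r := by rw [hr]; exact Nat.le_ceil _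
  have hN1 : (N : ℝ) ≤ (1 / 2 - 1 / (32 * (D : ℝ))) * m := by rw [hN]; exact Nat.floor_le hpos
  -- the degree of the certificate of a point
  let d : V n × V n → ℕ := fun a => dg (fst' (col a.1) p) (snd' (col a.1) p) (vals p a.2)
  let G := Q.filter (fun a => d a < r)
  let B := Q.filter (fun a => ¬ d a < r)
  have hcard : Q.card = G.card + B.card := (card_filter_add_card_filter_not _).symm
  -- the points with good certificates
  have hG : G.card * 2 ^ m ≤ 4 ^ n * vol m N := by
    have := coset_bound K p N A hA G ?_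
    · rwa [Fintype.card_fin] at this
    · intro a ha
      rw [mem_filter] at ha
      obtain ⟨h1, h2, h3, h4⟩ := hrow a ha.1
      obtain ⟨f, f1, f2, f3⟩ := cert K (col a.1) p a.2
      obtain ⟨g, g1, g2, g3⟩ := hC a.1 a.2 h3
      refine ⟨hQ ha.1, fun v => f v * g (a.2 + L p v), ?_, ?_, ?_⟩
      · refine deg_mono ?_ (mul_mem f1 (pull K p a.2 k g1))
        rw [hN]
        apply Nat.le_floor
        have k1 : d a < r := ha.2
        rw [hr, Nat.lt_ceil] at k1
        push_cast
        have k2 : (1 / 2 - 1 / (16 * (D : ℝ))) * m + m / (32 * D) =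
            (1 / 2 - 1 / (32 * (D : ℝ))) * m := by
          field_simp
          ring
        have k3 : ((dg (fst' (col a.1) p) (snd' (col a.1) p) (vals p a.2) : ℕ) : ℝ) <
          (1 / 2 - 1 / (16 * (D : ℝ))) * m := k1
        linarith
      · show f 0 * g (a.2 + L p 0) ≠ 0
        rw [L_zero, add_zero]
        exact mul_ne_zero f2 g2
      · intro v hv
        refine h1 _ ?_ (g3 _ (right_ne_zero_of_mul hv))
        exact hS a.1 a.2 _ (fun j => (f3 v (left_ne_zero_of_mul hv) j).symm) h2
  have hGr : (G.card : ℝ) ≤ 4 ^ n * Real.exp (-(m / (512 * (D : ℝ) ^ 2))) := by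
    have k1 := tail m N (1 / (32 * (D : ℝ))) (by positivity) hN1
    have k2 : (G.card : ℝ) * 2 ^ m ≤ 4 ^ n * (2 ^ m * Real.exp (-(m / (512 * (D : ℝ) ^ 2)))) := by
      have k3 : (G.card : ℝ) * 2 ^ m ≤ 4 ^ n * vol m N := by exact_mod_cast hG
      refine k3.trans (mul_le_mul_of_nonneg_left (k1.trans (le_of_eq ?_)) (by positivity))
      congr 2
      field_simp
      ring
    have k4 : (0 : ℝ) < 2 ^ m := by positivity
    have k5 : (G.card : ℝ) * 2 ^ m ≤
        (4 ^ n * Real.exp (-(m / (512 * (D : ℝ) ^ 2)))) * 2 ^ m := by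
      calc (G.card : ℝ) * 2 ^ m ≤ _ := k2
        _ = _ := by ring
    exact le_of_mul_le_mul_right k5 k4
  -- the other points
  have hBx : ∀ x : V n, ((B.filter (fun a => a.1 = x)).card : ℝ) ≤
      2 ^ n * (4 ^ (D ^ 2) * Real.exp (-(m / (128 * (D : ℝ) ^ 2)))) := by
    intro x
    rcases (B.filter (fun a => a.1 = x)).eq_empty_or_nonempty with he | ⟨a0, ha0⟩
    · rw [he, card_empty, Nat.cast_zero]
      positivity
    · rw [mem_filter, mem_filter] at ha0
      obtain ⟨_, _, _, hM⟩ := hrow a0 ha0.1.1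
      rw [ha0.2] at hM
      have k1 : (B.filter (fun a => a.1 = x)).card ≤ (univ.filter (fun y : V n =>
          r ≤ dg (fst' (col x) p) (snd' (col x) p) (vals p y))).card := by
        refine card_le_card_of_injOn Prod.snd ?_ ?_
        · intro a ha
          simp only [coe_filter, Set.mem_ofPred_eq, mem_univ, true_and] at ha ⊢
          obtain ⟨h1, h2⟩ := ha
          have h3 := (mem_filter.1 h1).2
          rw [not_lt] at h3
          rw [← h2]
          exact h3
        · intro a ha b hb h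
          simp only [coe_filter, Set.mem_ofPred_eq] at ha hb
          exact Prod.ext (ha.2.trans hb.2.symm) h
      have k2 := fiber_count p (fun w => r ≤ dg (fst' (col x) p) (snd' (col x) p) w)
      have k3 := bad_real hD (fst' (col x) p) (snd' (col x) p) r hr1 hM
      have k4 : ((univ.filter (fun y : V n =>
          r ≤ dg (fst' (col x) p) (snd' (col x) p) (vals p y))).card : ℝ) * 4 ^ m =
          ((univ.filter (fun w => r ≤ dg (fst' (col x) p) (snd' (col x) p) w)).card : ℝ) *
            2 ^ n := by exact_mod_cast k2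
      have k5 : ((univ.filter (fun y : V n =>
          r ≤ dg (fst' (col x) p) (snd' (col x) p) (vals p y))).card : ℝ) * 4 ^ m ≤
          (2 ^ n * (4 ^ (D ^ 2) * Real.exp (-(m / (128 * (D : ℝ) ^ 2))))) * 4 ^ m := by
        rw [k4]
        calc _ ≤ (4 ^ m * (4 ^ (D ^ 2) * Real.exp (-(m / (128 * (D : ℝ) ^ 2))))) * 2 ^ n :=
              mul_le_mul_of_nonneg_right k3 (by positivity)
          _ = _ := by ring
      have k6 := le_of_mul_le_mul_right k5 (by positivity)
      have k7 : ((B.filter (fun a => a.1 = x)).card : ℝ) ≤ ((univ.filter (fun y : V n =>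
          r ≤ dg (fst' (col x) p) (snd' (col x) p) (vals p y))).card : ℝ) := by
        exact_mod_cast k1
      exact k7.trans k6
  have hB : (B.card : ℝ) ≤ 4 ^ n * (4 ^ (D ^ 2) * Real.exp (-(m / (128 * (D : ℝ) ^ 2)))) := by
    have k1 : B.card = ∑ x : V n, (B.filter (fun a => a.1 = x)).card :=
      card_eq_sum_card_fiberwise (fun _ _ => mem_univ _)
    rw [k1]
    push_cast
    refine (sum_le_sum (fun x _ => hBx x)).trans (le_of_eq ?_)
    rw [sum_const, card_univ, Fintype.card_fun, ZMod.card, Fintype.card_fin, nsmul_eq_mul]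
    push_cast
    rw [← mul_assoc, ← mul_pow]
    norm_num
  rw [hcard]
  push_cast
  rw [mul_add]
  exact add_le_add hGr hB

end Pool.Agent.H69d
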